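import Pool.Agent.Q246.Blocks
import Mathlib.Algebra.GCDMonoid.Finset
import Mathlib.Algebra.GCDMonoid.Nat
import Mathlib.Order.ConditionallyCompleteLattice.Finset

set_option autoImplicit false

/-!
# MP_6f4934_co : the smallest relative term of a type A difference sequence is `1 / 2 ^ (n - 1)`
-/

namespace Pool.Agent.Results.MP_6f4934_co.Minimum

open Finset Pool.Agent.Q246.Blocks

/-- `v` is the coefficient vector (left side minus right side) of a type A equation for `n`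
coordinates numbered `0, …, n - 1`: the sum over the block `[i, j)` equals the sum over the
adjacent block `[j, k)`, where `0 ≤ i < j < k ≤ n`. -/
def EqA (n : ℕ) (v : Fin n → ℝ) : Prop :=
  ∃ i j k : ℕ, i < j ∧ j < k ∧ k ≤ n ∧ v = rblk n i j - rblk n j k

/-- type A sequences: positive vectors satisfying `n - 1` linearly independent type A
equations -/
def TypeA (n : ℕ) (d : Fin n → ℝ) : Prop :=
  (∀ i, 0 < d i) ∧ ∃ e : Fin (n - 1) → Fin n → ℝ, LinearIndependent ℝ e ∧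
    ∀ t, EqA n (e t) ∧ ∑ i, e t i * d i = 0

/-- type A sequences in smallest-integer format -/
def setA (n : ℕ) : Set (Fin n → ℕ) :=
  {d | univ.gcd d = 1 ∧ TypeA n (fun i => (d i : ℝ))}

lemma bd {n : ℕ} {d : Fin n → ℝ} (h : TypeA n d) (i : Fin n) :
    ∑ j, d j ≤ 2 ^ (n - 1) * d i := by
  obtain ⟨m, rfl⟩ : ∃ m, n = m + 1 := ⟨n - 1, by have := i.isLt; omega⟩
  obtain ⟨hd, e, hlin, he⟩ := h
  refine bound' d hd e (fun t => ?_) hlin (fun t => (he t).2) i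
  obtain ⟨a, b, c, -, -, -, h⟩ := (he t).1
  exact ⟨a, b, b, c, h⟩

lemma dbl_mem (m : ℕ) : (fun i : Fin (m + 1) => dbl (i : ℕ)) ∈ setA (m + 1) := by
  refine ⟨?_, ?_, ?_⟩
  · have h1 : univ.gcd (fun i : Fin (m + 1) => dbl (i : ℕ)) ∣ dbl ((0 : Fin (m + 1)) : ℕ) :=
      gcd_dvd (mem_univ (0 : Fin (m + 1)))
    exact Nat.dvd_one.1 h1
  · intro i
    have : 0 < dbl (i : ℕ) := Nat.two_pow_pos _
    exact Nat.cast_pos.2 this
  · refine ⟨dblEq m, dblEq_lin m, fun t => ⟨⟨0, (t : ℕ) + 1, (t : ℕ) + 2, ?_, ?_, ?_, rfl⟩,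
      dblEq_orth m t⟩⟩ <;> have := t.isLt <;> omega

theorem result : ∀ n : ℕ, 1 ≤ n →
    IsLeast {x : ℝ | ∃ d ∈ setA n, x = (⨅ i, (d i : ℝ)) / ∑ j, (d j : ℝ)} (1 / 2 ^ (n - 1)) ∧
    ∀ d : Fin n → ℝ, TypeA n d → ∀ i, ∑ j, d j ≤ 2 ^ (n - 1) * d i := by
  intro n hn
  obtain ⟨m, rfl⟩ : ∃ m, n = m + 1 := ⟨n - 1, by omega⟩
  refine ⟨⟨?_, ?_⟩, fun d hd i => bd hd i⟩
  · refine ⟨fun i : Fin (m + 1) => dbl (i : ℕ), dbl_mem m, ?_⟩
    have h1 : ∑ j : Fin (m + 1), ((dbl (j : ℕ) : ℕ) : ℝ) = 2 ^ m := by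
      rw [Fin.sum_univ_eq_sum_range (fun s : ℕ => ((dbl s : ℕ) : ℝ)) (m + 1), ← dbl_sum m,
        Nat.Ico_zero_eq_range]
    have h2 : (⨅ i : Fin (m + 1), ((dbl (i : ℕ) : ℕ) : ℝ)) = 1 := by
      apply le_antisymm
      · refine (ciInf_le (Set.finite_range _).bddBelow (0 : Fin (m + 1))).trans ?_
        simp [dbl]
      · apply le_ciInf
        intro i
        have : 1 ≤ dbl (i : ℕ) := Nat.one_le_two_pow
        exact_mod_cast this
    rw [Nat.add_sub_cancel]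
    show (1 : ℝ) / 2 ^ m = (⨅ i : Fin (m + 1), ((dbl (i : ℕ) : ℕ) : ℝ)) /
      ∑ j : Fin (m + 1), ((dbl (j : ℕ) : ℕ) : ℝ)
    rw [h1, h2]
  · rintro x ⟨d, hd, rfl⟩
    obtain ⟨i, hi⟩ := exists_eq_ciInf_of_finite (f := fun i : Fin (m + 1) => (d i : ℝ))
    rw [← hi]
    have h1 := bd hd.2 i
    have h2 : (0 : ℝ) < ∑ j : Fin (m + 1), (d j : ℝ) :=
      sum_pos (fun j _ => hd.2.1 j) ⟨0, mem_univ _⟩
    rw [div_le_div_iff₀ (by positivity) h2, one_mul, mul_comm]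
    exact h1

end Pool.Agent.Results.MP_6f4934_co.Minimum
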